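import Pool.Agent.Helper80.Drop.Common
import Pool.Agent.Helper65.Drop.Par
import Pool.Agent.Helper43.Drop.Line
import Pool.Agent.Helper37.Drop.Fc

/-!
# Piece LOW of MP_51c806_gt: integral cycles of non-crossing loops pair to `0`
-/

set_option autoImplicit false

namespace Pool.Agent.Helper50.Drop

open Finset MeasureTheory
open scoped RealInnerProductSpace
open Pool.Agent.Helper76.Freq (Q ins tr gr ev cobd cup Pr Adm gp Dep Nrm R3 E6 ver pt qf IsTop IsBot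
  H4 exists_isTop exists_isBot sk mix)
open Pool.Agent.Helper80.Drop

/-- lift of `ℤ/2` to `{0, 1}` -/
def lf (x : ZMod 2) : ℤ := if x = 0 then 0 else 1

theorem lf_cast (x : ZMod 2) : ((lf x : ℤ) : ZMod 2) = x := by
  revert x; decide

theorem lf_add (x y : ZMod 2) : lf x + lf y - lf (x + y) = 2 * (lf x * lf y) := by
  revert x y; decide

theorem lf_zero : lf 0 = 0 := rfl

open Classical in
/-- `0` if the loop stays below the level `1/4`, `1` otherwise -/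
noncomputable def kap (γ : LoopSpace 4) : ℤ :=
  if ∀ t : unitInterval, Hf (curve γ.1 t) < 1 / 4 then 0 else 1

theorem kap_or (γ : LoopSpace 4) : kap γ = 0 ∨ kap γ = 1 := by
  unfold kap
  split_ifs
  · exact Or.inl rfl
  · exact Or.inr rfl

theorem kap_zero {γ : LoopSpace 4} (h : kap γ = 0) (t : unitInterval) :
    Hf (curve γ.1 t) < 1 / 4 := by
  unfold kap at h
  by_cases h1 : ∀ t : unitInterval, Hf (curve γ.1 t) < 1 / 4
  · exact h1 t
  · rw [if_neg h1] at h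
    exact absurd h one_ne_zero

theorem kap_one {γ : LoopSpace 4} (h : kap γ = 1)
    (hS : ∀ t t' : unitInterval, |Hf (curve γ.1 t) - Hf (curve γ.1 t')| < 1 / 2)
    (t : unitInterval) : -(1 / 4) < Hf (curve γ.1 t) := by
  unfold kap at h
  by_cases h1 : ∀ t : unitInterval, Hf (curve γ.1 t) < 1 / 4
  · rw [if_pos h1] at h
    exact absurd h zero_ne_one
  · rw [not_forall] at h1
    obtain ⟨t', ht'⟩ := h1
    rw [not_lt] at ht'
    have h2 := (abs_lt.1 (hS t t')).1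
    linarith

/-- the function `kap` as a mod `2` cochain of degree `0` -/
noncomputable def kp (γ : ℕ → LoopSpace 4) : ZMod 2 := (kap (γ 0) : ZMod 2)

/-- the function `chi` as a cochain of degree `0` -/
noncomputable def ch (y : ℕ → E 4) : ZMod 2 := chi (y 0)

/-- the cochain `zeta` on loops -/
noncomputable def zt (N : ℕ) (γ : ℕ → LoopSpace 4) : ZMod 2 :=
  zeta N cA cB cC gg (fun i j => pnt N j (γ i))

/-- the correction cochain -/
noncomputable def Th (N : ℕ) (γ : ℕ → LoopSpace 4) : ZMod 2 :=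
  (-1) * Phi 2 N (cup 0 ch th) γ + cup 0 kp (Phi 2 N th) γ + cup 1 (cobd 0 kp) (zt N) γ

/-- the holonomy of the top line along a loop -/
noncomputable def hol (N : ℕ) (γ : LoopSpace 4) : ZMod 2 := psum cA (fun j => pnt N j γ) N

/-- the integral cochain `Ξ` -/
noncomputable def Xi (N : ℕ) (γ : ℕ → LoopSpace 4) : ℤ :=
  (kap (γ 1) - kap (γ 0)) * (lf (hol N (γ 1)) *
    (lf (cB (pnt N 0 (γ 1)) (pnt N 0 (γ 2))) * lf (cB (pnt N 0 (γ 2)) (pnt N 0 (γ 3)))))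

/-- the integral cochain `Υ` -/
noncomputable def Up (N : ℕ) (γ : ℕ → LoopSpace 4) : ℤ :=
  (kap (γ 1) - kap (γ 0)) * (lf (hol N (γ 1)) * lf (cB (pnt N 0 (γ 1)) (pnt N 0 (γ 2))))

theorem kp_dep : Dep 0 kp := fun y y' h => by unfold kp; rw [h 0 le_rfl]

theorem ch_dep : Dep 0 ch := fun y y' h => by unfold ch; rw [h 0 le_rfl]

theorem nrm_zero {Y : Type} {R : Type*} [CommRing R] (φ : (ℕ → Y) → R) : Nrm 0 φ := by
  rintro y ⟨j, hj, -⟩
  omega

theorem zt_dep (N : ℕ) : Dep 1 (zt N) := by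
  intro γ γ' h
  refine zeta_dep N cA cB cC gg _ _ fun i hi => ?_
  funext j
  rw [h i hi]

theorem zt_nrm (N : ℕ) : Nrm 1 (zt N) := by
  rintro γ ⟨j, hj, h⟩
  refine zeta_nrm N cA cB cC gg cA_self cB_self cC_self _ ⟨j, hj, ?_⟩
  funext i
  rw [h]

theorem cobd_kp (γ : ℕ → LoopSpace 4) :
    cobd 0 kp γ = ((kap (γ 1) - kap (γ 0) : ℤ) : ZMod 2) := by
  have h : cobd 0 kp γ = ∑ i ∈ range 2, (-1) ^ i * ((kap (γ (sk i 0)) : ℤ) : ZMod 2) := rfl
  have h0 : sk 0 0 = 1 := rfl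
  have h1 : sk 1 0 = 0 := rfl
  rw [h, sum_range_succ, sum_range_succ, sum_range_zero, h0, h1]
  push_cast
  ring

theorem cobd_cobd_kp (γ : ℕ → LoopSpace 4) : cobd 1 (cobd 0 kp) γ = 0 := by
  have h : cobd 1 (cobd 0 kp) γ = ∑ i ∈ range 3, (-1) ^ i * cobd 0 kp (fun j => γ (sk i j)) := rfl
  rw [h]
  have s00 : sk 0 0 = 1 := rfl
  have s01 : sk 0 1 = 2 := rfl
  have s10 : sk 1 0 = 0 := rfl
  have s11 : sk 1 1 = 2 := rfl
  have s20 : sk 2 0 = 0 := rfl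
  have s21 : sk 2 1 = 1 := rfl
  simp only [cobd_kp, sum_range_succ, sum_range_zero, s00, s01, s10, s11, s20, s21]
  push_cast
  ring

theorem cobd_kp_nrm : Nrm 1 (cobd 0 kp) := by
  rintro γ ⟨j, hj, h⟩
  have : j = 0 := by omega
  subst this
  rw [cobd_kp]
  have h' : γ 0 = γ 1 := h
  rw [h']
  simp

theorem Th_dep (N : ℕ) : Dep 2 (Th N) := by
  intro γ γ' h
  have h1 : Dep 2 (Phi 2 N (cup 0 ch th)) := Phi_dep (ch_dep.cup th_dep)
  have h2 : Dep (0 + 2) (cup 0 kp (Phi 2 N th)) := kp_dep.cup (Phi_dep th_dep)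
  have h3 : Dep (1 + 1) (cup 1 (cobd 0 kp) (zt N)) := (kp_dep.cobd).cup (zt_dep N)
  unfold Th
  rw [h1 _ _ h, h2 _ _ h, h3 _ _ h]

theorem Th_nrm (N : ℕ) : Nrm 2 (Th N) := by
  intro γ h
  have h1 : Nrm 2 (Phi 2 N (cup 0 ch th)) := Phi_nrm ((nrm_zero ch).cup th_nrm)
  have h2 : Nrm (0 + 2) (cup 0 kp (Phi 2 N th)) := (nrm_zero kp).cup (Phi_nrm th_nrm)
  have h3 : Nrm (1 + 1) (cup 1 (cobd 0 kp) (zt N)) := cobd_kp_nrm.cup (zt_nrm N)
  unfold Th
  rw [h1 _ h, h2 _ h, h3 _ h]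
  simp

theorem Up_dep (N : ℕ) : Dep 2 (Up N) := by
  intro γ γ' h
  unfold Up
  rw [h 0 (by omega), h 1 (by omega), h 2 (by omega)]

theorem Up_nrm (N : ℕ) : Nrm 2 (Up N) := by
  rintro γ ⟨j, hj, h⟩
  unfold Up
  interval_cases j
  · have h' : γ 0 = γ 1 := h
    rw [h', sub_self, zero_mul]
  · have h' : γ 1 = γ 2 := h
    rw [h', cB_self, lf_zero, mul_zero, mul_zero]

/-- linearity of `Phi` -/
theorem Phi_sub {N d : ℕ} (φ ψ : (ℕ → E 4) → ZMod 2) (γ : ℕ → LoopSpace 4) :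
    Phi d N (fun y => φ y - ψ y) γ = Phi d N φ γ - Phi d N ψ γ := by
  unfold Phi
  rw [← sum_sub_distrib]
  refine sum_congr rfl fun k _ => ?_
  unfold Pr
  rw [← sum_sub_distrib]
  exact sum_congr rfl fun i _ => by ring

theorem om2_eq (y : ℕ → E 4) : om2 y = cobd 3 (cup 0 ch th) y - cup 0 ch (cobd 3 th) y := by
  have h := Pool.Agent.Helper76.Freq.cobd_cup (p := 0) (q := 3) (Ψ := th) ch_dep y
  have h1 : om2 y = cup (0 + 1) (cobd 0 ch) th y := rfl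
  have h2 : cobd 3 (cup 0 ch th) y = cobd (0 + 3) (cup 0 ch th) y := rfl
  rw [h1, h2, h]
  ring

/-- the data of a small simplex of loops -/
structure SmallData (S : Set (LoopSpace 4)) (δ : ℝ) (N : ℕ) (γ : ℕ → LoopSpace 4) : Prop where
  hN : 0 < N
  mem : ∀ i ≤ 3, γ i ∈ S
  small : Small δ N 3 γ

section main

variable {S : Set (LoopSpace 4)}
    (hS : ∀ γ ∈ S, ∀ t t' : unitInterval, |Hf (curve γ.1 t) - Hf (curve γ.1 t')| < 1 / 2)
    {δ : ℝ} (hδ : ∀ p q : E 4, ‖p‖ = 1 → ‖q‖ = 1 → ‖p - q‖ < δ → |Hf p - Hf q| < 1 / 4)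
    {N : ℕ} {γ : ℕ → LoopSpace 4}

include hS hδ

/-- when `kap` changes all points are near the level `0` -/
theorem level_of_change (h : SmallData S δ N γ) {p q : ℕ} (hp : p ≤ 3) (hq : q ≤ 3)
    (h0 : kap (γ p) = 0) (h1 : kap (γ q) = 1) {i : ℕ} (hi : i ≤ 3) (t : unitInterval) :
    |Hf (curve (γ i).1 t)| ≤ 1 / 2 := by
  have h2 := kap_zero h0 t
  have h3 := kap_one h1 (hS _ (h.mem q hq)) t
  have hn : ∀ j, ‖curve (γ j).1 t‖ = 1 := fun j => (γ j).2.1 _ t.2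
  have h4 : ‖curve (γ i).1 t - curve (γ p).1 t‖ < δ := h.small i hi p hp t t (by simp)
  have h5 : ‖curve (γ i).1 t - curve (γ q).1 t‖ < δ := h.small i hi q hq t t (by simp)
  have h6 := abs_lt.1 (hδ _ _ (hn i) (hn p) h4)
  have h7 := abs_lt.1 (hδ _ _ (hn i) (hn q) h5)
  rw [abs_le]
  constructor <;> linarith

theorem level_of_ne (h : SmallData S δ N γ) (hne : kap (γ 1) - kap (γ 0) ≠ 0) {i : ℕ}
    (hi : i ≤ 3) (t : unitInterval) : |Hf (curve (γ i).1 t)| ≤ 1 / 2 := by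
  rcases kap_or (γ 0) with h0 | h0 <;> rcases kap_or (γ 1) with h1 | h1
  · rw [h0, h1] at hne; simp at hne
  · exact level_of_change hS hδ h (by omega) (by omega) h0 h1 hi t
  · exact level_of_change hS hδ h (by omega) (by omega) h1 h0 hi t
  · rw [h0, h1] at hne; simp at hne

/-- Step E -/
theorem bracket (h : SmallData S δ N γ)
    (hth : ∀ y : ℕ → E 4, (∀ i < 5, ‖y i‖ = 1) →
      (∀ i < 5, ∀ j < 5, ‖y i - y j‖ < δ) → (∀ i < 5, |Hf (y i)| ≤ 1 / 2) → cobd 3 th y = 0) :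
    kp γ * Phi 3 N (cobd 3 th) γ = Phi 3 N (cup 0 ch (cobd 3 th)) γ := by
  unfold Phi
  rw [mul_sum]
  refine sum_congr rfl fun k hk => ?_
  have hk := mem_range.1 hk
  have e1 : Pr 4 (cup 0 ch (cobd 3 th)) (fun i => (pnt N k (γ i), pnt N (k + 1) (γ i))) =
      chi (pnt N k (γ 0)) *
        Pr 4 (cobd 3 th) (fun i => (pnt N k (γ i), pnt N (k + 1) (γ i))) := by
    unfold Pr
    rw [mul_sum]
    refine sum_congr rfl fun i _ => ?_
    have e2 : cup 0 ch (cobd 3 th) (mix i fun i => (pnt N k (γ i), pnt N (k + 1) (γ i))) =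
        chi (pnt N k (γ 0)) *
          cobd 3 th (mix i fun i => (pnt N k (γ i), pnt N (k + 1) (γ i))) := by
      change ch _ * _ = _
      have e3 : ch (mix i fun i => (pnt N k (γ i), pnt N (k + 1) (γ i))) =
          chi (pnt N k (γ 0)) := by
        simp [ch, mix]
      rw [e3]
      rfl
    rw [e2]
    ring
  rw [e1]
  by_cases hc : kp γ = chi (pnt N k (γ 0))
  · rw [hc]
  have hz : Pr 4 (cobd 3 th) (fun i => (pnt N k (γ i), pnt N (k + 1) (γ i))) = 0 := by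
    -- the level of the base point
    have hlev : |Hf (pnt N k (γ 0))| ≤ 1 / 4 := by
      rcases kap_or (γ 0) with h0 | h0
      · have h1 := kap_zero h0 (gr N k)
        have h2 : chi (pnt N k (γ 0)) ≠ 0 := by
          intro h3
          apply hc
          rw [h3]
          simp [kp, h0]
        have h3 : 0 < Hf (pnt N k (γ 0)) := by
          unfold chi at h2
          by_contra h4
          rw [if_neg h4] at h2
          exact h2 rfl
        have h4 : Hf (pnt N k (γ 0)) < 1 / 4 := h1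
        rw [abs_le]
        constructor <;> linarith
      · have h1 := kap_one h0 (hS _ (h.mem 0 (by omega))) (gr N k)
        have h2 : chi (pnt N k (γ 0)) ≠ 1 := by
          intro h3
          apply hc
          rw [h3]
          simp [kp, h0]
        have h3 : Hf (pnt N k (γ 0)) ≤ 0 := by
          unfold chi at h2
          by_contra h4
          rw [if_pos (not_le.1 h4)] at h2
          exact h2 rfl
        have h4 : -(1 / 4) < Hf (pnt N k (γ 0)) := h1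
        rw [abs_le]
        constructor <;> linarith
    unfold Pr
    refine sum_eq_zero fun i hi => ?_
    have hi := mem_range.1 hi
    have hpt : ∀ j < 5, ∃ a ≤ 3, ∃ e ≤ 1,
        mix i (fun i => (pnt N k (γ i), pnt N (k + 1) (γ i))) j = pnt N (k + e) (γ a) := by
      intro j hj
      unfold mix
      split_ifs with h1
      · exact ⟨j, by omega, 0, by omega, rfl⟩
      · exact ⟨j - 1, by omega, 1, le_rfl, rfl⟩
    rw [hth _ ?_ ?_ ?_, mul_zero]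
    · intro j hj
      obtain ⟨a, ha, e, he, h1⟩ := hpt j hj
      rw [h1]
      exact norm_pnt _ _ _
    · intro j hj j' hj'
      obtain ⟨a, ha, e, he, h1⟩ := hpt j hj
      obtain ⟨a', ha', e', he', h1'⟩ := hpt j' hj'
      rw [h1, h1']
      exact small_pnt h.small ha ha' hk he he'
    · intro j hj
      obtain ⟨a, ha, e, he, h1⟩ := hpt j hj
      rw [h1]
      have h2 : ‖pnt N (k + e) (γ a) - pnt N (k + 0) (γ 0)‖ < δ :=
        small_pnt h.small ha (by omega) hk he (by omega)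
      have h3 := abs_lt.1 (hδ _ _ (norm_pnt _ _ _) (norm_pnt _ _ _) h2)
      have h4 := abs_le.1 hlev
      rw [add_zero] at h3
      rw [abs_le]
      constructor <;> linarith
  rw [hz, mul_zero, mul_zero]

/-- the cocycle data needed for the parity identity -/
theorem near_data (h : SmallData S δ N γ)
    (hline : ∀ p q r : E 4, ‖p‖ = 1 → ‖q‖ = 1 → ‖r‖ = 1 →
      ‖p - q‖ < δ → ‖q - r‖ < δ → ‖p - r‖ < δ →
      (-1 / 2 ≤ Hf p → -1 / 2 ≤ Hf q → -1 / 2 ≤ Hf r → cA p q + cA q r = cA p r) ∧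
      (Hf p ≤ 1 / 2 → Hf q ≤ 1 / 2 → Hf r ≤ 1 / 2 →
        cB p q + cB q r = cB p r ∧ cC p q + cC q r = cC p r) ∧
      (Hf p ≤ 1 / 2 → Hf q ≤ 1 / 2 → cC p q = cB p q + gg p + gg q))
    (hne : kap (γ 1) - kap (γ 0) ≠ 0) {k : ℕ} (hk : k < N) {p q r : E 4}
    (hp : p ∈ near3 (fun i j => pnt N j (γ (i + 1))) k)
    (hq : q ∈ near3 (fun i j => pnt N j (γ (i + 1))) k)
    (hr : r ∈ near3 (fun i j => pnt N j (γ (i + 1))) k) :
    cA p q + cA q r = cA p r ∧ cB p q + cB q r = cB p r ∧ cC p q + cC q r = cC p r ∧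
      cC p q = cB p q + gg p + gg q := by
  have key : ∀ p ∈ near3 (fun i j => pnt N j (γ (i + 1))) k, ∃ a ≤ 3, ∃ e ≤ 1,
      p = pnt N (k + e) (γ a) := by
    rintro p ⟨i, hi, h1 | h1⟩
    · exact ⟨i + 1, by omega, 0, by omega, h1⟩
    · exact ⟨i + 1, by omega, 1, le_rfl, h1⟩
  obtain ⟨a, ha, e, he, rfl⟩ := key p hp
  obtain ⟨a', ha', e', he', rfl⟩ := key q hq
  obtain ⟨a'', ha'', e'', he'', rfl⟩ := key r hr
  have l1 := abs_le.1 (level_of_ne hS hδ h hne ha (gr N (k + e)))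
  have l2 := abs_le.1 (level_of_ne hS hδ h hne ha' (gr N (k + e')))
  have l3 := abs_le.1 (level_of_ne hS hδ h hne ha'' (gr N (k + e'')))
  obtain ⟨h1, h2, h3⟩ := hline (pnt N (k + e) (γ a)) (pnt N (k + e') (γ a'))
    (pnt N (k + e'') (γ a'')) (norm_pnt _ _ _) (norm_pnt _ _ _) (norm_pnt _ _ _)
    (small_pnt h.small ha ha' hk he he') (small_pnt h.small ha' ha'' hk he' he'')
    (small_pnt h.small ha ha'' hk he he'')
  have l1' : -(1 / 2) ≤ Hf (pnt N (k + e) (γ a)) := l1.1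
  have l2' : -(1 / 2) ≤ Hf (pnt N (k + e') (γ a')) := l2.1
  have l3' : -(1 / 2) ≤ Hf (pnt N (k + e'') (γ a'')) := l3.1
  obtain ⟨h4, h5⟩ := h2 l1.2 l2.2 l3.2
  exact ⟨h1 (by linarith) (by linarith) (by linarith), h4, h5, h3 l1.2 l2.2⟩

/-- the main identity -/
theorem low_identity (h : SmallData S δ N γ)
    (hth : ∀ y : ℕ → E 4, (∀ i < 5, ‖y i‖ = 1) →
      (∀ i < 5, ∀ j < 5, ‖y i - y j‖ < δ) → (∀ i < 5, |Hf (y i)| ≤ 1 / 2) → cobd 3 th y = 0)
    (hline : ∀ p q r : E 4, ‖p‖ = 1 → ‖q‖ = 1 → ‖r‖ = 1 →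
      ‖p - q‖ < δ → ‖q - r‖ < δ → ‖p - r‖ < δ →
      (-1 / 2 ≤ Hf p → -1 / 2 ≤ Hf q → -1 / 2 ≤ Hf r → cA p q + cA q r = cA p r) ∧
      (Hf p ≤ 1 / 2 → Hf q ≤ 1 / 2 → Hf r ≤ 1 / 2 →
        cB p q + cB q r = cB p r ∧ cC p q + cC q r = cC p r) ∧
      (Hf p ≤ 1 / 2 → Hf q ≤ 1 / 2 → cC p q = cB p q + gg p + gg q)) :
    Phi 3 N om2 γ = cobd 2 (Th N) γ + (-1) * ((Xi N γ : ℤ) : ZMod 2) := by
  -- Step B and C
  have hB : Phi 3 N om2 γ = - cobd 2 (Phi 2 N (cup 0 ch th)) γ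
      - Phi 3 N (cup 0 ch (cobd 3 th)) γ := by
    have e1 : om2 = fun y => cobd 3 (cup 0 ch th) y - cup 0 ch (cobd 3 th) y := funext om2_eq
    rw [e1, Phi_sub]
    have e2 := cobd_Phi (d := 2) h.hN (φ := cup 0 ch th) (ch_dep.cup th_dep) γ
    have e3 : Phi 3 N (cobd 3 (cup 0 ch th)) γ = - cobd 2 (Phi 2 N (cup 0 ch th)) γ := by
      rw [e2, neg_neg]
    rw [e3]
  -- Step D
  have hD : cobd 2 (cup 0 kp (Phi 2 N th)) γ =
      cup 1 (cobd 0 kp) (Phi 2 N th) γ - kp γ * Phi 3 N (cobd 3 th) γ := by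
    have e1 := Pool.Agent.Helper76.Freq.cobd_cup (p := 0) (q := 2) (Ψ := Phi 2 N th) kp_dep γ
    have e2 : cobd 2 (cup 0 kp (Phi 2 N th)) γ = cobd (0 + 2) (cup 0 kp (Phi 2 N th)) γ := rfl
    rw [e2, e1]
    have e3 : cup 0 kp (cobd 2 (Phi 2 N th)) γ = kp γ * cobd 2 (Phi 2 N th) γ := rfl
    rw [e3, cobd_Phi (d := 2) h.hN th_dep γ]
    ring
  -- Step G
  have hG : cobd 2 (cup 1 (cobd 0 kp) (zt N)) γ = - cup 1 (cobd 0 kp) (cobd 1 (zt N)) γ := by
    have e1 := Pool.Agent.Helper76.Freq.cobd_cup (p := 1) (q := 1) (Ψ := zt N) (kp_dep.cobd) γ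
    have e2 : cobd 2 (cup 1 (cobd 0 kp) (zt N)) γ = cobd (1 + 1) (cup 1 (cobd 0 kp) (zt N)) γ := rfl
    rw [e2, e1]
    have e3 : cup (1 + 1) (cobd 1 (cobd 0 kp)) (zt N) γ = 0 := by
      change cobd 1 (cobd 0 kp) γ * _ = 0
      rw [cobd_cobd_kp, zero_mul]
    rw [e3]
    ring
  -- Step F
  have hF : cup 1 (cobd 0 kp) (Phi 2 N th) γ =
      cup 1 (cobd 0 kp) (cobd 1 (zt N)) γ + ((Xi N γ : ℤ) : ZMod 2) := by
    have e1 : ∀ Ψ : (ℕ → LoopSpace 4) → ZMod 2, cup 1 (cobd 0 kp) Ψ γ =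
        ((kap (γ 1) - kap (γ 0) : ℤ) : ZMod 2) * Ψ fun j => γ (j + 1) := by
      intro Ψ
      change cobd 0 kp γ * _ = _
      rw [cobd_kp]
    rw [e1, e1]
    by_cases hne : kap (γ 1) - kap (γ 0) = 0
    · simp [Xi, hne]
    have e2 := parity (N := N) cA cB cC gg (fun i j => pnt N j (γ (i + 1)))
      (fun i _ => pnt_closed h.hN _)
      (fun k hk p hp q hq r hr => (near_data hS hδ h hline hne hk hp hq hr).1)
      (fun k hk p hp q hq r hr => (near_data hS hδ h hline hne hk hp hq hr).2.1)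
      (fun k hk p hp q hq r hr => (near_data hS hδ h hline hne hk hp hq hr).2.2.1)
      (fun k hk p hp q hq => (near_data hS hδ h hline hne hk hp hq hq).2.2.2)
    have e3 : Phi 2 N th (fun j => γ (j + 1)) = ∑ j ∈ range N,
        Pr 3 (cup 1 (c1 cC) (cup 1 (c1 cB) (c1 cA)))
          (fun i => (pnt N j (γ (i + 1)), pnt N (j + 1) (γ (i + 1)))) := rfl
    have e4 : cobd 1 (zeta N cA cB cC gg) (fun i j => pnt N j (γ (i + 1))) =
        cobd 1 (zt N) fun j => γ (j + 1) := rfl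
    rw [e3, e2, e4]
    unfold Xi hol
    push_cast
    simp only [lf_cast]
    ring
  -- linearity
  have hT : cobd 2 (Th N) γ = - cobd 2 (Phi 2 N (cup 0 ch th)) γ +
      cobd 2 (cup 0 kp (Phi 2 N th)) γ + cobd 2 (cup 1 (cobd 0 kp) (zt N)) γ := by
    unfold cobd
    rw [← sum_neg_distrib, ← sum_add_distrib, ← sum_add_distrib]
    refine sum_congr rfl fun i _ => ?_
    unfold Th cobd
    ring
  rw [hT, hB, hD, hG, hF, bracket hS hδ h hth]
  ring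

/-- the integral trick -/
theorem low_integral (h : SmallData S δ N γ)
    (hline : ∀ p q r : E 4, ‖p‖ = 1 → ‖q‖ = 1 → ‖r‖ = 1 →
      ‖p - q‖ < δ → ‖q - r‖ < δ → ‖p - r‖ < δ →
      (-1 / 2 ≤ Hf p → -1 / 2 ≤ Hf q → -1 / 2 ≤ Hf r → cA p q + cA q r = cA p r) ∧
      (Hf p ≤ 1 / 2 → Hf q ≤ 1 / 2 → Hf r ≤ 1 / 2 →
        cB p q + cB q r = cB p r ∧ cC p q + cC q r = cC p r) ∧
      (Hf p ≤ 1 / 2 → Hf q ≤ 1 / 2 → cC p q = cB p q + gg p + gg q)) :
    cobd 2 (Up N) γ = (-2) * Xi N γ := by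
  have e0 : cobd 2 (Up N) γ = Up N (fun j => γ (j + 1)) - Up N (fun j => γ (sk 1 j)) +
      Up N (fun j => γ (sk 2 j)) - Up N (fun j => γ (sk 3 j)) := by
    unfold cobd
    simp only [sum_range_succ, sum_range_zero]
    have : (fun j => γ (sk 0 j)) = fun j => γ (j + 1) := by
      funext j
      simp [sk]
    rw [this]
    ring
  rw [e0]
  have s10 : sk 1 0 = 0 := rfl
  have s11 : sk 1 1 = 2 := rfl
  have s12 : sk 1 2 = 3 := rfl
  have s20 : sk 2 0 = 0 := rfl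
  have s21 : sk 2 1 = 1 := rfl
  have s22 : sk 2 2 = 3 := rfl
  have s30 : sk 3 0 = 0 := rfl
  have s31 : sk 3 1 = 1 := rfl
  have s32 : sk 3 2 = 2 := rfl
  simp only [Up, Xi, s10, s11, s12, s20, s21, s22, s30, s31, s32]
  norm_num
  by_cases hne : kap (γ 1) - kap (γ 0) = 0
  · have : kap (γ 1) = kap (γ 0) := by linarith
    rw [this]
    ring
  have e1 : hol N (γ 1) = hol N (γ 2) :=
    psum_eq (N := N) cA (fun i j => pnt N j (γ (i + 1)))
      (fun i _ => pnt_closed h.hN _)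
      (fun k hk p hp q hq r hr => (near_data hS hδ h hline hne hk hp hq hr).1)
      (i := 0) (j := 1) (by omega) (by omega)
  have e2 : cB (pnt N 0 (γ 1)) (pnt N 0 (γ 2)) + cB (pnt N 0 (γ 2)) (pnt N 0 (γ 3)) =
      cB (pnt N 0 (γ 1)) (pnt N 0 (γ 3)) := by
    refine (near_data hS hδ h hline hne (k := 0) h.hN ?_ ?_ ?_).2.1
    · exact ⟨0, by omega, Or.inl rfl⟩
    · exact ⟨1, by omega, Or.inl rfl⟩
    · exact ⟨2, by omega, Or.inl rfl⟩
  have e3 := lf_add (cB (pnt N 0 (γ 1)) (pnt N 0 (γ 2))) (cB (pnt N 0 (γ 2)) (pnt N 0 (γ 3)))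
  rw [e2] at e3
  rw [← e1]
  linear_combination (-(kap (γ 1) - kap (γ 0)) * lf (hol N (γ 1))) * e3

end main

theorem low {S : Set (LoopSpace 4)}
    (hS : ∀ γ ∈ S, ∀ t t' : unitInterval, |Hf (curve γ.1 t) - Hf (curve γ.1 t')| < 1 / 2)
    {z : Cube (LoopSpace 4) 3 →₀ ℤ} (hz : z ∈ cycles (LoopSpace 4) S 3) :
    ∃ K, ∀ M ≥ K, ∀ N ≥ K, evc M 3 (Phi 3 N om2) z = 0 := by
  obtain ⟨hz1, hz2⟩ := hz
  obtain ⟨δ1, hδ1, hth⟩ := th_cocycle
  obtain ⟨δ2, hδ2, hline⟩ := line_cocycle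
  obtain ⟨δ3, hδ3, hlev⟩ := Hf_unif (1 / 4) (by norm_num)
  set δ := min δ1 (min δ2 δ3) with hδ
  have hδ0 : 0 < δ := lt_min hδ1 (lt_min hδ2 hδ3)
  have hl1 : δ ≤ δ1 := min_le_left _ _
  have hl2 : δ ≤ δ2 := (min_le_right _ _).trans (min_le_left _ _)
  have hl3 : δ ≤ δ3 := (min_le_right _ _).trans (min_le_right _ _)
  have hlev' : ∀ p q : E 4, ‖p‖ = 1 → ‖q‖ = 1 → ‖p - q‖ < δ → |Hf p - Hf q| < 1 / 4 :=
    fun p q hp hq h => hlev p q hp hq (h.trans_le hl3)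
  have hth' : ∀ y : ℕ → E 4, (∀ i < 5, ‖y i‖ = 1) →
      (∀ i < 5, ∀ j < 5, ‖y i - y j‖ < δ) → (∀ i < 5, |Hf (y i)| ≤ 1 / 2) → cobd 3 th y = 0 :=
    fun y h1 h2 h3 => hth y h1 (fun i hi j hj => (h2 i hi j hj).trans_le hl1) h3
  have hline' : ∀ p q r : E 4, ‖p‖ = 1 → ‖q‖ = 1 → ‖r‖ = 1 →
      ‖p - q‖ < δ → ‖q - r‖ < δ → ‖p - r‖ < δ →
      (-1 / 2 ≤ Hf p → -1 / 2 ≤ Hf q → -1 / 2 ≤ Hf r → cA p q + cA q r = cA p r) ∧
      (Hf p ≤ 1 / 2 → Hf q ≤ 1 / 2 → Hf r ≤ 1 / 2 →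
        cB p q + cB q r = cB p r ∧ cC p q + cC q r = cC p r) ∧
      (Hf p ≤ 1 / 2 → Hf q ≤ 1 / 2 → cC p q = cB p q + gg p + gg q) :=
    fun p q r hp hq hr h1 h2 h3 => hline p q r hp hq hr (h1.trans_le hl2) (h2.trans_le hl2)
      (h3.trans_le hl2)
  -- the identities on small simplices
  obtain ⟨K1, hK1⟩ := evc_small (R := ZMod 2) hz1 hδ0 (fun N => Phi 3 N om2)
    (fun N γ => cobd 2 (Th N) γ + (-1) * ((Xi N γ : ℤ) : ZMod 2))
    (fun N hN γ h1 h2 => low_identity hS hlev' ⟨hN, h1, h2⟩ hth' hline')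
  obtain ⟨K2, hK2⟩ := evc_small (R := ℤ) hz1 hδ0 (fun N => cobd 2 (Up N))
    (fun N γ => (-2) * Xi N γ)
    (fun N hN γ h1 h2 => low_integral hS hlev' ⟨hN, h1, h2⟩ hline')
  refine ⟨max (max K1 K2) 1, fun M hM N hN => ?_⟩
  have hM1 : K1 ≤ M := (le_max_left _ _).trans ((le_max_left _ _).trans hM)
  have hM2 : K2 ≤ M := (le_max_right _ _).trans ((le_max_left _ _).trans hM)
  have hM3 : 0 < M := lt_of_lt_of_le one_pos ((le_max_right _ _).trans hM)
  have hN1 : K1 ≤ N := (le_max_left _ _).trans ((le_max_left _ _).trans hN)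
  have hN2 : K2 ≤ N := (le_max_right _ _).trans ((le_max_left _ _).trans hN)
  have h1 := hK1 M hM1 N hN1
  have h2 := hK2 M hM2 N hN2
  simp only at h1 h2
  rw [evc_mul] at h2
  have h3 : evc M 3 (cobd 2 (Up N)) z = 0 := by
    rw [← evc_bdry hM3 (Up_dep N) z]
    exact evc_degen (Up_nrm N) hz2
  rw [h3] at h2
  have h4 : evc M 3 (Xi N) z = 0 := by linarith
  have h5 : evc M 3 (cobd 2 (Th N)) z = 0 := by
    rw [← evc_bdry hM3 (Th_dep N) z]
    exact evc_degen (Th_nrm N) hz2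
  rw [h1, evc_add (R := ZMod 2) 3 M (cobd 2 (Th N)) (fun γ => (-1) * ((Xi N γ : ℤ) : ZMod 2)) z,
    evc_mul (R := ZMod 2) 3 M (-1) (fun γ => ((Xi N γ : ℤ) : ZMod 2)) z, h5]
  have h6 := evc_map (Int.castRingHom (ZMod 2)) 3 M (Xi N) z
  simp only [eq_intCast] at h6
  rw [h6, h4]
  simp

end Pool.Agent.Helper50.Drop
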