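import Pool.Agent.Helper80.Drop.Common
import Pool.Agent.Helper71.Drop.Sup
import Pool.Agent.Helper51.Drop.Top
import Pool.Agent.Helper43.Drop.Line
import Pool.Agent.Helper37.Drop.Fc

/-!
# Piece POS of MP_51c806_gt: invariance of the integral pairing, short loops
-/

set_option autoImplicit false

namespace Pool.Agent.Helper50.Drop

open Finset MeasureTheory
open scoped RealInnerProductSpace
open Pool.Agent.Helper76.Freq (Q ins tr gr ev cobd cup Pr Adm gp Dep Nrm R3 E6 ver pt qf IsTop IsBot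
  H4 exists_isTop exists_isBot sk mix)
open Pool.Agent.Helper80.Drop

/-- the points of the simplices of the prism -/
theorem mix_pnt (N k d i j : ℕ) (γ : ℕ → LoopSpace 4) (hi : i ≤ d) (hj : j ≤ d + 1) :
    ∃ a ≤ d, ∃ e ≤ 1,
      mix i (fun i => (pnt N k (γ i), pnt N (k + 1) (γ i))) j = pnt N (k + e) (γ a) := by
  unfold mix
  split_ifs with h1
  · exact ⟨j, by omega, 0, by omega, rfl⟩
  · exact ⟨j - 1, by omega, 1, le_rfl, rfl⟩

theorem pos : ∃ ε : ℝ, 0 < ε ∧ ∀ S : Set (LoopSpace 4),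
    (∀ γ ∈ S, ∀ t t' : unitInterval, ‖curve γ.1 t - curve γ.1 t'‖ < ε) →
    ∀ z ∈ cycles (LoopSpace 4) S 3, ∃ K, ∀ M ≥ K, ∀ N ≥ K, evc M 3 (Phi 3 N omZ) z = 0 := by
  obtain ⟨δ, hδ, hcoc⟩ := omZ_cocycle
  refine ⟨δ / 3, by positivity, fun S hS z hz => ?_⟩
  obtain ⟨hz1, hz2⟩ := hz
  choose T hT1 hT2 hT3 using fun N => t_operator omZ omZ_dep omZ_nrm N
  set T' : ℕ → (ℕ → LoopSpace 4) → ℤ := fun N γ => T N (fun i j => pnt N j (γ i)) with hT'
  have hdep : ∀ N, Dep 2 (T' N) := by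
    intro N γ γ' h
    refine hT1 N _ _ fun i hi => ?_
    funext j
    rw [h i hi]
  have hnrm : ∀ N, Nrm 2 (T' N) := by
    rintro N γ ⟨i, hi, h⟩
    refine hT2 N _ ⟨i, hi, ?_⟩
    funext j
    rw [h]
  obtain ⟨K, hK⟩ := evc_small (R := ℤ) (d := 3) hz1 (δ := δ / 3) (by positivity) (fun N => Phi 3 N omZ)
    (fun N => cobd 2 (T' N)) (by
      intro N hN γ h1 h2
      have h3 := hT3 N (fun i j => pnt N j (γ i)) (fun i _ => pnt_closed hN _) (by
        intro y hy
        refine hcoc y ?_ ?_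
        · intro i hi
          obtain ⟨a, ha, j, hj, h4⟩ := hy i hi
          rw [h4]
          exact norm_pnt _ _ _
        · intro i hi i' hi'
          obtain ⟨a, ha, j, hj, h4⟩ := hy i hi
          obtain ⟨a', ha', j', hj', h4'⟩ := hy i' hi'
          rw [h4, h4']
          have h5 : ‖pnt N j (γ a) - pnt N j' (γ a)‖ < δ / 3 :=
            hS _ (h1 a (by omega)) (gr N j) (gr N j')
          have h6 : ‖pnt N j' (γ a) - pnt N j' (γ a')‖ < δ / 3 :=
            h2 a (by omega) a' (by omega) (gr N j') (gr N j') (by simp)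
          calc ‖pnt N j (γ a) - pnt N j' (γ a')‖
              = ‖(pnt N j (γ a) - pnt N j' (γ a)) + (pnt N j' (γ a) - pnt N j' (γ a'))‖ := by
                rw [sub_add_sub_cancel]
            _ ≤ ‖pnt N j (γ a) - pnt N j' (γ a)‖ + ‖pnt N j' (γ a) - pnt N j' (γ a')‖ :=
                norm_add_le _ _
            _ < δ := by linarith)
      exact h3)
  refine ⟨max K 1, fun M hM N hN => ?_⟩
  have hM1 : K ≤ M := (le_max_left _ _).trans hM
  have hM3 : 0 < M := lt_of_lt_of_le one_pos ((le_max_right _ _).trans hM)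
  have hN1 : K ≤ N := (le_max_left _ _).trans hN
  rw [hK M hM1 N hN1, ← evc_bdry hM3 (hdep N) z]
  exact evc_degen (hnrm N) hz2

theorem inv_bdry {w : Cube (LoopSpace 4) 4 →₀ ℤ} (hw : w ∈ chains (LoopSpace 4) Set.univ 4) :
    ∃ K, ∀ M ≥ K, ∀ N ≥ K, evc M 3 (Phi 3 N omZ) (bdry (LoopSpace 4) 3 w) = 0 := by
  obtain ⟨δ, hδ, hcoc⟩ := omZ_cocycle
  obtain ⟨K, hK⟩ := evc_small (R := ℤ) hw (δ := δ) hδ (fun N => cobd 3 (Phi 3 N omZ))
    (fun _ _ => 0) (by
      intro N hN γ _ h2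
      rw [cobd_Phi hN omZ_dep γ]
      have : Phi (3 + 1) N (cobd (3 + 1) omZ) γ = 0 := by
        unfold Phi
        refine sum_eq_zero fun k hk => ?_
        have hk := mem_range.1 hk
        unfold Pr
        refine sum_eq_zero fun i hi => ?_
        have hi := mem_range.1 hi
        rw [hcoc _ ?_ ?_, mul_zero]
        · intro j hj
          obtain ⟨a, ha, e, he, h3⟩ := mix_pnt N k 4 i j γ (by omega) (by omega)
          rw [h3]
          exact norm_pnt _ _ _
        · intro j hj j' hj'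
          obtain ⟨a, ha, e, he, h3⟩ := mix_pnt N k 4 i j γ (by omega) (by omega)
          obtain ⟨a', ha', e', he', h3'⟩ := mix_pnt N k 4 i j' γ (by omega) (by omega)
          rw [h3, h3']
          exact small_pnt h2 ha ha' hk he he'
      rw [this, neg_zero])
  refine ⟨max K 1, fun M hM N hN => ?_⟩
  have hM1 : K ≤ M := (le_max_left _ _).trans hM
  have hM3 : 0 < M := lt_of_lt_of_le one_pos ((le_max_right _ _).trans hM)
  have hN1 : K ≤ N := (le_max_left _ _).trans hN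
  rw [evc_bdry hM3 (Phi_dep omZ_dep) w, hK M hM1 N hN1]
  exact evc_zero' _ _ _

theorem inv_degen {z : Cube (LoopSpace 4) 3 →₀ ℤ} (hz : z ∈ degen (LoopSpace 4) Set.univ 3)
    (M N : ℕ) : evc M 3 (Phi 3 N omZ) z = 0 :=
  evc_degen (Phi_nrm omZ_nrm) hz

theorem inv_mod {z : Cube (LoopSpace 4) 3 →₀ ℤ} (hz : z ∈ chains (LoopSpace 4) Set.univ 3) :
    ∃ K, ∀ M ≥ K, ∀ N ≥ K, ((evc M 3 (Phi 3 N omZ) z : ℤ) : ZMod 2) = evc M 3 (Phi 3 N om2) z := by
  obtain ⟨δ, hδ, hmod⟩ := omZ_mod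
  obtain ⟨K, hK⟩ := evc_small (R := ZMod 2) hz (δ := δ) hδ
    (fun N γ => ((Phi 3 N omZ γ : ℤ) : ZMod 2)) (fun N => Phi 3 N om2) (by
      intro N hN γ _ h2
      unfold Phi
      push_cast
      refine sum_congr rfl fun k hk => ?_
      have hk := mem_range.1 hk
      unfold Pr
      push_cast
      refine sum_congr rfl fun i hi => ?_
      have hi := mem_range.1 hi
      rw [hmod _ ?_ ?_]
      · intro j hj
        obtain ⟨a, ha, e, he, h3⟩ := mix_pnt N k 3 i j γ (by omega) (by omega)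
        rw [h3]
        exact norm_pnt _ _ _
      · intro j hj j' hj'
        obtain ⟨a, ha, e, he, h3⟩ := mix_pnt N k 3 i j γ (by omega) (by omega)
        obtain ⟨a', ha', e', he', h3'⟩ := mix_pnt N k 3 i j' γ (by omega) (by omega)
        rw [h3, h3']
        exact small_pnt h2 ha ha' hk he he')
  refine ⟨K, fun M hM N hN => ?_⟩
  rw [← hK M hM N hN]
  have h6 := evc_map (Int.castRingHom (ZMod 2)) 3 M (Phi 3 N omZ) z
  simp only [eq_intCast] at h6
  exact h6.symm

end Pool.Agent.Helper50.Drop
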