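import Pool.Agent.Helper80.Drop.H1

/-!
# From the definitions of `Helper50.Drop.Defs` to those of `Helper80.Drop.Stmt`
-/

set_option autoImplicit false

namespace Pool.Agent.Helper80.Drop.Bridge

open Set
open Pool.Agent.Helper50.Drop (LoopSpace SphereMetric chains degen bdry cycles bounds Homology
  Represents cr)
open Pool.Agent.Helper80.Drop.Stmt
open Pool.Agent.Helper80.Drop.H1 (toR homeo toLoop ofLoop len_toLoop ofLoop_toLoop toLoop_ofLoop)

section

variable {X : Type} [TopologicalSpace X] {d : ℕ}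

theorem isChain_iff (S : Set X) (c : Cube X d →₀ ℤ) : IsChain S c ↔ c ∈ chains X S d := by
  rw [chains, Finsupp.mem_supported]
  rfl

theorem isDegen_iff (S : Set X) (c : Cube X d →₀ ℤ) : IsDegen S c ↔ c ∈ degen X S d := by
  rw [degen, Finsupp.mem_supported]
  rfl

omit [TopologicalSpace X] in
theorem bd_eq (c : Cube X (d + 1) →₀ ℤ) : bd c = bdry X d c := by
  rw [bd, bdry, Finsupp.linearCombination_apply]
  refine Finsupp.sum_congr fun σ _ => ?_
  rw [Finset.smul_sum]
  refine Finset.sum_congr rfl fun i _ => ?_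
  rw [smul_smul, smul_sub, Finsupp.smul_single, Finsupp.smul_single, smul_eq_mul, mul_one,
    mul_comm]
  rfl

theorem isCycle_iff (S : Set X) (c : Cube X d →₀ ℤ) : IsCycle S c ↔ c ∈ cycles X S d := by
  cases d with
  | zero => exact isChain_iff S c
  | succ d =>
    show IsChain S c ∧ IsDegen S (bd c) ↔ c ∈ chains X S (d + 1) ⊓ (degen X S d).comap (bdry X d)
    rw [Submodule.mem_inf, Submodule.mem_comap, isChain_iff, isDegen_iff, bd_eq]

theorem isBdry_iff (c : Cube X d →₀ ℤ) : IsBdry c ↔ c ∈ bounds X Set.univ d := by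
  rw [bounds, Submodule.mem_sup]
  constructor
  · rintro ⟨b, e, hb, he, rfl⟩
    rw [isChain_iff] at hb
    rw [isDegen_iff] at he
    exact ⟨bdry X d b, Submodule.mem_map_of_mem hb, e, he, by rw [bd_eq]⟩
  · rintro ⟨y, hy, e, he, rfl⟩
    obtain ⟨b, hb, rfl⟩ := Submodule.mem_map.1 hy
    exact ⟨b, e, (isChain_iff _ _).2 hb, (isDegen_iff _ _).2 he, by rw [bd_eq]⟩

theorem isChain_mono {S S' : Set X} (h : S ⊆ S') {c : Cube X d →₀ ℤ} (hc : IsChain S c) :
    IsChain S' c := fun σ hσ => ⟨(hc σ hσ).1, fun s => h ((hc σ hσ).2 s)⟩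

theorem isDegen_mono {S S' : Set X} (h : S ⊆ S') {c : Cube X d →₀ ℤ} (hc : IsDegen S c) :
    IsDegen S' c := fun σ hσ => ⟨⟨(hc σ hσ).1.1, fun s => h ((hc σ hσ).1.2 s)⟩, (hc σ hσ).2⟩

theorem isCycle_mono {S S' : Set X} (h : S ⊆ S') {c : Cube X d →₀ ℤ} (hc : IsCycle S c) :
    IsCycle S' c := by
  cases d with
  | zero => exact isChain_mono h hc
  | succ d => exact ⟨isChain_mono h hc.1, isDegen_mono h hc.2⟩

end

/-! ## push forward of chains -/

section

variable {X Y : Type} [TopologicalSpace X] [TopologicalSpace Y] {d : ℕ}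

/-- push forward of a chain -/
noncomputable def push (f : X → Y) (c : Cube X d →₀ ℤ) : Cube Y d →₀ ℤ :=
  Finsupp.mapDomain (fun σ : Cube X d => f ∘ σ) c

omit [TopologicalSpace X] [TopologicalSpace Y] in
theorem push_support (f : X → Y) (c : Cube X d →₀ ℤ) {τ : Cube Y d} (h : τ ∈ (push f c).support) :
    ∃ σ ∈ c.support, f ∘ σ = τ := by
  classical
  have := Finsupp.mapDomain_support h
  exact Finset.mem_image.1 this

theorem isChain_push {f : X → Y} (hf : Continuous f) {S : Set X} {T : Set Y} (h : MapsTo f S T)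
    {c : Cube X d →₀ ℤ} (hc : IsChain S c) : IsChain T (push f c) := by
  intro τ hτ
  obtain ⟨σ, hσ, rfl⟩ := push_support f c hτ
  exact ⟨hf.comp (hc σ hσ).1, fun s => h ((hc σ hσ).2 s)⟩

theorem isDegen_push {f : X → Y} (hf : Continuous f) {S : Set X} {T : Set Y} (h : MapsTo f S T)
    {c : Cube X d →₀ ℤ} (hc : IsDegen S c) : IsDegen T (push f c) := by
  intro τ hτ
  obtain ⟨σ, hσ, rfl⟩ := push_support f c hτ
  obtain ⟨⟨h1, h2⟩, i, h3⟩ := hc σ hσ
  exact ⟨⟨hf.comp h1, fun s => h (h2 s)⟩, i, fun s s' hs => congrArg f (h3 s s' hs)⟩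

omit [TopologicalSpace X] [TopologicalSpace Y] in
theorem bd_push (f : X → Y) (c : Cube X (d + 1) →₀ ℤ) : bd (push f c) = push f (bd c) := by
  classical
  unfold bd push
  rw [Finsupp.sum_mapDomain_index (by simp) (by
    intro σ r r'
    rw [← Finset.sum_add_distrib]
    refine Finset.sum_congr rfl fun i _ => ?_
    rw [mul_add, Finsupp.single_add, Finsupp.single_add]
    abel)]
  rw [Finsupp.sum, Finsupp.sum, Finsupp.mapDomain_finsetSum]
  refine Finset.sum_congr rfl fun σ _ => ?_
  rw [Finsupp.mapDomain_finsetSum]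
  refine Finset.sum_congr rfl fun i _ => ?_
  rw [sub_eq_add_neg, sub_eq_add_neg, Finsupp.mapDomain_add, ← Finsupp.single_neg,
    ← Finsupp.single_neg, Finsupp.mapDomain_single, Finsupp.mapDomain_single]
  rfl

theorem isCycle_push {f : X → Y} (hf : Continuous f) {S : Set X} {T : Set Y} (h : MapsTo f S T)
    {c : Cube X d →₀ ℤ} (hc : IsCycle S c) : IsCycle T (push f c) := by
  cases d with
  | zero => exact isChain_push hf h hc
  | succ d =>
    refine ⟨isChain_push hf h hc.1, ?_⟩
    rw [bd_push]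
    exact isDegen_push hf h hc.2

theorem isBdry_push {f : X → Y} (hf : Continuous f) {c : Cube X d →₀ ℤ} (hc : IsBdry c) :
    IsBdry (push f c) := by
  obtain ⟨b, e, hb, he, rfl⟩ := hc
  exact ⟨push f b, push f e, isChain_push hf (mapsTo_univ _ _) hb, isDegen_push hf (mapsTo_univ _ _) he,
    by rw [bd_push]; exact Finsupp.mapDomain_add⟩

omit [TopologicalSpace X] [TopologicalSpace Y] in
theorem push_push {f : X → Y} {g : Y → X} (h : ∀ x, g (f x) = x) (c : Cube X d →₀ ℤ) :
    push g (push f c) = c := by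
  unfold push
  rw [← Finsupp.mapDomain_comp]
  have : (fun σ : Cube Y d => g ∘ σ) ∘ (fun σ : Cube X d => f ∘ σ) = id := by
    ext σ s
    exact h _
  rw [this, Finsupp.mapDomain_id]

omit [TopologicalSpace X] [TopologicalSpace Y] in
theorem push_sub (f : X → Y) (c c' : Cube X d →₀ ℤ) : push f (c - c') = push f c - push f c' :=
  (Finsupp.mapDomain.addMonoidHom (M := ℤ) (fun σ : Cube X d => f ∘ σ)).map_sub c c'

omit [TopologicalSpace X] [TopologicalSpace Y] in
theorem push_smul (f : X → Y) (m : ℤ) (c : Cube X d →₀ ℤ) : push f (m • c) = m • push f c :=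
  (Finsupp.mapDomain.addMonoidHom (M := ℤ) (fun σ : Cube X d => f ∘ σ)).map_zsmul m c

end

/-! ## critical levels -/

/-- critical levels in terms of cycles -/
theorem crit_eq {n d : ℕ} (g : SphereMetric n) (z : ↥(cycles (LoopSpace n) Set.univ d)) :
    crit (toR g) (push toLoop z.1) =
      cr g (Submodule.Quotient.mk z : Homology (LoopSpace n) d) := by
  unfold crit cr
  congr 1
  ext a
  constructor
  · rintro ⟨z', h1, h2⟩
    have hS : MapsTo ofLoop {γ : Loop n | len (toR g) γ ≤ a}
        {γ : LoopSpace n | Pool.Agent.Helper50.Drop.length g γ ≤ a} := by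
      intro γ hγ
      show Pool.Agent.Helper50.Drop.length g (ofLoop γ) ≤ a
      rw [← len_toLoop, toLoop_ofLoop]
      exact hγ
    have h3 := isCycle_push (homeo n).continuous_invFun hS h1
    have h4 := isBdry_push (homeo n).continuous_invFun h2
    change IsCycle _ (push ofLoop z') at h3
    change IsBdry (push ofLoop (z' - push toLoop z.1)) at h4
    rw [push_sub, push_push ofLoop_toLoop] at h4
    have h5 : push ofLoop z' ∈ cycles (LoopSpace n) Set.univ d :=
      (isCycle_iff _ _).1 (isCycle_mono (Set.subset_univ _) h3)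
    refine ⟨push ofLoop z', (isCycle_iff _ _).1 h3, h5, ?_⟩
    rw [Submodule.Quotient.eq]
    exact (isBdry_iff _).1 h4
  · rintro ⟨z', h1, h2, h3⟩
    rw [Submodule.Quotient.eq] at h3
    have h4 : IsBdry (z' - z.1) := (isBdry_iff _).2 h3
    have hS : MapsTo toLoop {γ : LoopSpace n | Pool.Agent.Helper50.Drop.length g γ ≤ a}
        {γ : Loop n | len (toR g) γ ≤ a} := by
      intro γ hγ
      show len (toR g) (toLoop γ) ≤ a
      rw [len_toLoop]
      exact hγ
    refine ⟨push toLoop z', isCycle_push (homeo n).continuous_toFun hS ((isCycle_iff _ _).2 h1), ?_⟩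
    rw [← push_sub]
    exact isBdry_push (homeo n).continuous_toFun h4

/-- a class is represented by a cycle, with the same critical levels of all multiples -/
theorem exists_cycle {n d : ℕ} (x : Homology (LoopSpace n) d) :
    ∃ z : Cube (Loop n) d →₀ ℤ, IsCycle Set.univ z ∧
      ∀ (m : ℤ) (g : SphereMetric n), crit (toR g) (m • z) = cr g (m • x) := by
  obtain ⟨z, rfl⟩ := Submodule.Quotient.mk_surjective _ x
  refine ⟨push toLoop z.1, isCycle_push (homeo n).continuous_toFun (mapsTo_univ _ _)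
    ((isCycle_iff _ _).2 z.2), fun m g => ?_⟩
  rw [← push_smul]
  exact crit_eq g (m • z)

/-- the statement of the main theorem -/
theorem bridge {n d : ℕ} {m : ℤ}
    (h : ∃ x : Homology (LoopSpace n) d, ∃ B : ℝ, ∀ C : ℝ, ∃ g : SphereMetric n,
      0 < cr g (m • x) ∧ cr g (m • x) ≤ B ∧ C < cr g x) :
    ∃ X : Cube (Loop n) d →₀ ℤ, IsCycle Set.univ X ∧ ∃ B : ℝ, ∀ C : ℝ, ∃ g : RMetric n,
      0 < crit g (m • X) ∧ crit g (m • X) ≤ B ∧ C < crit g X := by
  obtain ⟨x, B, h⟩ := h
  obtain ⟨z, hz, hc⟩ := exists_cycle x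
  refine ⟨z, hz, B, fun C => ?_⟩
  obtain ⟨g, h1, h2, h3⟩ := h C
  refine ⟨toR g, by rwa [hc], by rwa [hc], ?_⟩
  have := hc 1 g
  rw [one_smul, one_smul] at this
  rwa [this]

end Pool.Agent.Helper80.Drop.Bridge
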