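import Pool.Agent.Helper50.Drop.CoDefs

/-!
# Common lemmas on cochains on the loop space (MP_51c806_gt, pieces LOW and POS)
-/

set_option autoImplicit false

namespace Pool.Agent.Helper80.Drop

open Finset
open Pool.Agent.Helper50.Drop
open Pool.Agent.Helper76.Freq (Q ins tr gr ev cobd cup Pr Adm gp Dep Nrm R3 E6 ver pt qf IsTop IsBot
  H4 exists_isTop exists_isBot)

theorem curve_zero (γ : LoopSpace 4) : curve γ.1 0 = γ.1.1 := by
  unfold curve
  simp

theorem pnt_closed {N : ℕ} (hN : 0 < N) (γ : LoopSpace 4) : pnt N N γ = pnt N 0 γ := by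
  unfold pnt
  rw [Pool.Agent.Helper76.Freq.gr_self hN, Pool.Agent.Helper76.Freq.gr_zero]
  rw [Set.Icc.coe_one, Set.Icc.coe_zero, curve_zero]
  exact γ.2.2

theorem norm_pnt (N j : ℕ) (γ : LoopSpace 4) : ‖pnt N j γ‖ = 1 :=
  γ.2.1 _ (gr N j).2

theorem small_pnt {δ : ℝ} {N d : ℕ} {γ : ℕ → LoopSpace 4} (h : Small δ N d γ) {i j k e e' : ℕ}
    (hi : i ≤ d) (hj : j ≤ d) (hk : k < N) (he : e ≤ 1) (he' : e' ≤ 1) :
    ‖pnt N (k + e) (γ i) - pnt N (k + e') (γ j)‖ < δ := by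
  refine h i hi j hj _ _ ?_
  rw [Pool.Agent.Helper76.Freq.coe_gr (by omega), Pool.Agent.Helper76.Freq.coe_gr (by omega),
    ← sub_div, abs_div, Nat.abs_cast]
  have h1 : |((k + e : ℕ) : ℝ) - ((k + e' : ℕ) : ℝ)| ≤ 1 := by
    push_cast
    have h2 : (e : ℝ) ≤ 1 := by exact_mod_cast he
    have h3 : (e' : ℝ) ≤ 1 := by exact_mod_cast he'
    have h4 : (0 : ℝ) ≤ e := Nat.cast_nonneg _
    have h5 : (0 : ℝ) ≤ e' := Nat.cast_nonneg _
    rw [abs_le]
    constructor <;> linarith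
  gcongr

section

variable {R : Type*} [CommRing R]

theorem cobd_Phi {N d : ℕ} (hN : 0 < N) {φ : (ℕ → E 4) → R} (hφ : Dep (d + 1) φ)
    (γ : ℕ → LoopSpace 4) :
    cobd d (Phi d N φ) γ = - Phi (d + 1) N (cobd (d + 1) φ) γ := by
  have h1 : cobd d (Phi d N φ) γ + Phi (d + 1) N (cobd (d + 1) φ) γ =
      ∑ k ∈ range N, ((φ fun i => pnt N (k + 1) (γ i)) - (φ fun i => pnt N k (γ i))) := by
    have h2 : cobd d (Phi d N φ) γ = ∑ k ∈ range N,
        cobd d (Pr (d + 1) φ) (fun i => (pnt N k (γ i), pnt N (k + 1) (γ i))) := by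
      unfold cobd Phi
      rw [sum_comm]
      refine sum_congr rfl fun i _ => ?_
      rw [mul_sum]
    rw [h2, Phi, ← sum_add_distrib]
    refine sum_congr rfl fun k _ => ?_
    rw [add_comm]
    exact Pool.Agent.Helper76.Freq.prism_succ hφ _
  rw [sum_range_sub (fun k => φ fun i => pnt N k (γ i))] at h1
  have h3 : (fun i => pnt N N (γ i)) = fun i => pnt N 0 (γ i) := by
    funext i
    exact pnt_closed hN _
  rw [h3, sub_self] at h1
  exact eq_neg_of_add_eq_zero_left h1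

theorem Phi_dep {N d : ℕ} {φ : (ℕ → E 4) → R} (hφ : Dep (d + 1) φ) : Dep d (Phi d N φ) := by
  intro γ γ' h
  unfold Phi
  refine sum_congr rfl fun k _ => ?_
  refine hφ.pr _ _ fun j hj => ?_
  rw [h j hj]

theorem Phi_nrm {N d : ℕ} {φ : (ℕ → E 4) → R} (hφ : Nrm (d + 1) φ) : Nrm d (Phi d N φ) := by
  rintro γ ⟨j, hj, h⟩
  unfold Phi
  refine sum_eq_zero fun k _ => ?_
  refine hφ.pr _ ⟨j, hj, ?_⟩
  rw [h]

theorem ev_map {R' : Type*} [CommRing R'] (f : R →+* R') {Y : Type} (d : ℕ) (Ms : ℕ → ℕ)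
    (Φ : (ℕ → Y) → R) (c : Q → Y) : ev d Ms (fun y => f (Φ y)) c = f (ev d Ms Φ c) := by
  induction d generalizing Y Ms with
  | zero => rfl
  | succ d ih =>
    simp only [ev]
    rw [map_sum]
    refine sum_congr rfl fun j _ => ?_
    rw [← ih]
    congr 1
    funext z
    simp only [Pr, map_sum, map_mul, map_pow, map_neg, map_one]

variable {Y : Type}

theorem evc_map {R' : Type*} [CommRing R'] (f : R →+* R') (d M : ℕ)
    (Φ : (ℕ → Y) → R) (z : Cube Y d →₀ ℤ) : evc M d (fun y => f (Φ y)) z = f (evc M d Φ z) := by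
  unfold evc
  rw [Finsupp.linearCombination_apply, Finsupp.linearCombination_apply, Finsupp.sum,
    Finsupp.sum, map_sum]
  refine sum_congr rfl fun c _ => ?_
  rw [ev_map, map_zsmul]

theorem evc_add (d M : ℕ) (Φ Ψ : (ℕ → Y) → R) (z : Cube Y d →₀ ℤ) :
    evc M d (fun y => Φ y + Ψ y) z = evc M d Φ z + evc M d Ψ z := by
  unfold evc
  rw [Finsupp.linearCombination_apply, Finsupp.linearCombination_apply,
    Finsupp.linearCombination_apply, Finsupp.sum, Finsupp.sum, Finsupp.sum, ← sum_add_distrib]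
  refine sum_congr rfl fun c _ => ?_
  rw [Pool.Agent.Helper76.Freq.ev_add, smul_add]

theorem evc_mul (d M : ℕ) (r : R) (Φ : (ℕ → Y) → R) (z : Cube Y d →₀ ℤ) :
    evc M d (fun y => r * Φ y) z = r * evc M d Φ z := by
  unfold evc
  rw [Finsupp.linearCombination_apply, Finsupp.linearCombination_apply, Finsupp.sum, Finsupp.sum,
    mul_sum]
  refine sum_congr rfl fun c _ => ?_
  rw [Pool.Agent.Helper76.Freq.ev_mul, mul_smul_comm]

theorem evc_zero' (d M : ℕ) (z : Cube Y d →₀ ℤ) :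
    evc M d (fun _ : ℕ → Y => (0 : R)) z = 0 := by
  have := evc_mul d M (0 : R) (fun _ : ℕ → Y => (0 : R)) z
  simpa using this

end

end Pool.Agent.Helper80.Drop
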