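import Pool.Agent.Helper80.Drop.Stmt
import Pool.Agent.Helper50.Drop.Defs

/-!
# The two models of the free loop space are homeomorphic
-/

set_option autoImplicit false

namespace Pool.Agent.Helper80.Drop.H1

open MeasureTheory Set
open Pool.Agent.Helper50.Drop (LoopSpace curve Vel SphereMetric E)
open Pool.Agent.Helper80.Drop.Stmt (Loop RMetric h1dist len)

variable {n : ℕ}

/-! ## velocities -/

theorem intble (v : Vel n) : Integrable (v : ℝ → E n) (volume.restrict (Icc (0 : ℝ) 1)) :=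
  (Lp.memLp v).integrable (by norm_num)

theorem iint (v : Vel n) : IntervalIntegrable (v : ℝ → E n) volume 0 1 := by
  rw [intervalIntegrable_iff_integrableOn_Icc_of_le zero_le_one]
  exact intble v

theorem hasDerivAt_curve (p : E n × Vel n) :
    ∀ᵐ t ∂(volume.restrict (Icc (0 : ℝ) 1)), HasDerivAt (curve p) (p.2 t) t := by
  rw [ae_restrict_iff' measurableSet_Icc]
  filter_upwards [(iint p.2).ae_hasDerivAt_integral] with t ht hmem
  have := ht (by rw [uIcc_of_le zero_le_one]; exact hmem) 0 (by simp)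
  exact this.const_add p.1

theorem ae_Ioo : ∀ᵐ t ∂(volume.restrict (Icc (0 : ℝ) 1)), t ∈ Ioo (0 : ℝ) 1 := by
  rw [← restrict_Ioo_eq_restrict_Icc]
  exact ae_restrict_mem measurableSet_Ioo

/-- periodic extension of the curve -/
noncomputable def per (p : E n × Vel n) (t : ℝ) : E n := curve p (Int.fract t)

theorem per_eq {p : E n × Vel n} (hp : curve p 1 = p.1) {t : ℝ} (ht : t ∈ Icc (0 : ℝ) 1) :
    per p t = curve p t := by
  rcases ht.2.eq_or_lt with h | h
  · subst h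
    simp only [per, Int.fract_one, hp]
    simp [curve]
  · rw [per, Int.fract_eq_self.2 ⟨ht.1, h⟩]

theorem deriv_per (p : E n × Vel n) :
    ∀ᵐ t ∂(volume.restrict (Icc (0 : ℝ) 1)), deriv (per p) t = p.2 t := by
  filter_upwards [hasDerivAt_curve p, ae_Ioo] with t ht hmem
  have h : per p =ᶠ[nhds t] curve p := by
    filter_upwards [isOpen_Ioo.mem_nhds hmem] with s hs
    rw [per, Int.fract_eq_self.2 ⟨hs.1.le, hs.2⟩]
  rw [h.deriv_eq]
  exact ht.deriv

theorem integral_congr_Icc {F : Type*} [NormedAddCommGroup F] [NormedSpace ℝ F] {f g : ℝ → F}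
    (h : ∀ᵐ t ∂(volume.restrict (Icc (0 : ℝ) 1)), f t = g t) {t : ℝ} (ht : t ∈ Icc (0 : ℝ) 1) :
    ∫ s in (0 : ℝ)..t, f s = ∫ s in (0 : ℝ)..t, g s := by
  apply intervalIntegral.integral_congr_ae_restrict
  rw [uIoc_of_le ht.1]
  refine ae_restrict_of_ae_restrict_of_subset ?_ h
  exact fun s hs => ⟨hs.1.le, hs.2.trans ht.2⟩

/-- from velocities to loops -/
noncomputable def toLoop (p : LoopSpace n) : Loop n where
  toFun := per p.1
  norm_eq t := p.2.1 _ ⟨Int.fract_nonneg t, (Int.fract_lt_one t).le⟩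
  periodic t := by simp [per]
  sq_integrable := (memLp_congr_ae (deriv_per p.1)).2 (Lp.memLp p.1.2)
  eq_integral t ht := by
    rw [per_eq p.2.2 ht, per_eq p.2.2 ⟨le_rfl, zero_le_one⟩, integral_congr_Icc (deriv_per p.1) ht]
    simp [curve]

/-- starting point and velocity -/
noncomputable def pv (γ : Loop n) : E n × Vel n := (γ.toFun 0, γ.sq_integrable.toLp (deriv γ.toFun))

theorem curve_pv (γ : Loop n) {t : ℝ} (ht : t ∈ Icc (0 : ℝ) 1) : curve (pv γ) t = γ.toFun t := by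
  rw [γ.eq_integral t ht, curve, pv]
  simp only
  rw [integral_congr_Icc (MemLp.coeFn_toLp γ.sq_integrable) ht]

theorem closed (γ : Loop n) : γ.toFun 1 = γ.toFun 0 := by
  have := γ.periodic 0
  rwa [zero_add] at this

/-- from loops to velocities -/
noncomputable def ofLoop (γ : Loop n) : LoopSpace n :=
  ⟨pv γ, fun t ht => by rw [curve_pv γ ht]; exact γ.norm_eq t, by
    rw [curve_pv γ ⟨zero_le_one, le_rfl⟩, closed γ]; rfl⟩

theorem ofLoop_toLoop (p : LoopSpace n) : ofLoop (toLoop p) = p := by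
  apply Subtype.ext
  apply Prod.ext
  · show per p.1 0 = p.1.1
    rw [per_eq p.2.2 ⟨le_rfl, zero_le_one⟩]
    simp [curve]
  · apply Lp.ext
    exact (MemLp.coeFn_toLp (toLoop p).sq_integrable).trans (deriv_per p.1)

theorem Loop.ext' {γ γ' : Loop n} (h : ∀ t, γ.toFun t = γ'.toFun t) : γ = γ' := by
  cases γ
  cases γ'
  congr
  exact funext h

theorem fract_eq (γ : Loop n) (t : ℝ) : γ.toFun (Int.fract t) = γ.toFun t := by
  have h : Function.Periodic γ.toFun 1 := γ.periodic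
  rw [Int.fract, ← mul_one ((⌊t⌋ : ℤ) : ℝ)]
  exact h.sub_int_mul_eq ⌊t⌋

theorem toLoop_ofLoop (γ : Loop n) : toLoop (ofLoop γ) = γ := by
  apply Loop.ext'
  intro t
  show curve (pv γ) (Int.fract t) = γ.toFun t
  rw [curve_pv γ ⟨Int.fract_nonneg t, (Int.fract_lt_one t).le⟩, fract_eq]

/-! ## metrics and lengths -/

/-- the metric, in unbundled form -/
noncomputable def toR (g : SphereMetric n) : RMetric n where
  form x u v := g.form x u v
  smooth u v := (g.smooth.clm_apply contDiff_const).clm_apply contDiff_const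
  add x u v w := by rw [map_add]; rfl
  smul x c u w := by rw [map_smul]; rfl
  symm := g.symm
  pos := g.pos

theorem len_toLoop (g : SphereMetric n) (p : LoopSpace n) :
    len (toR g) (toLoop p) = Pool.Agent.Helper50.Drop.length g p := by
  unfold len Pool.Agent.Helper50.Drop.length
  apply integral_congr_Icc _ ⟨zero_le_one, le_rfl⟩
  filter_upwards [deriv_per p.1, ae_restrict_mem measurableSet_Icc] with t h1 h2
  show Real.sqrt (g.form (per p.1 t) (deriv (per p.1) t) (deriv (per p.1) t)) = _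
  rw [h1, per_eq p.2.2 h2]

/-! ## distances -/

theorem norm_sq (v : Vel n) : ∫ t in (0 : ℝ)..1, ‖v t‖ ^ 2 = ‖v‖ ^ 2 := by
  rw [intervalIntegral.integral_of_le zero_le_one, ← integral_Icc_eq_integral_Ioc,
    ← real_inner_self_eq_norm_sq, L2.inner_def]
  congr 1
  ext t
  rw [real_inner_self_eq_norm_sq]

theorem norm_sq_sub (v w : Vel n) : ∫ t in (0 : ℝ)..1, ‖v t - w t‖ ^ 2 = ‖v - w‖ ^ 2 := by
  rw [← norm_sq]
  refine (integral_congr_Icc ?_ ⟨zero_le_one, le_rfl⟩).symm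
  filter_upwards [Lp.coeFn_sub v w] with t ht
  rw [ht]
  rfl

/-- pointwise distance of two curves -/
theorem norm_integral_le (v : Vel n) {t : ℝ} (ht : t ∈ Icc (0 : ℝ) 1) :
    ‖∫ s in (0 : ℝ)..t, v s‖ ≤ ‖v‖ := by
  have h1 : ‖∫ s in (0 : ℝ)..t, v s‖ ≤ ∫ s in (0 : ℝ)..t, ‖v s‖ :=
    intervalIntegral.norm_integral_le_integral_norm ht.1
  have h2 : ∫ s in (0 : ℝ)..t, ‖v s‖ ≤ ∫ s in (0 : ℝ)..1, ‖v s‖ :=
    intervalIntegral.integral_mono_interval le_rfl ht.1 ht.2
      (Filter.Eventually.of_forall fun s => norm_nonneg _) (iint v).norm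
  have hsq : IntervalIntegrable (fun s => ‖v s‖ ^ 2) volume 0 1 := by
    rw [intervalIntegrable_iff_integrableOn_Icc_of_le zero_le_one]
    exact (Lp.memLp v).integrable_norm_pow (by norm_num)
  have h3 : (∫ s in (0 : ℝ)..1, ‖v s‖) ^ 2 ≤ ∫ s in (0 : ℝ)..1, ‖v s‖ ^ 2 := by
    set m := ∫ s in (0 : ℝ)..1, ‖v s‖ with hm
    have h4 : 0 ≤ ∫ s in (0 : ℝ)..1, (‖v s‖ - m) ^ 2 :=
      intervalIntegral.integral_nonneg zero_le_one fun s _ => sq_nonneg _
    have h5 : ∫ s in (0 : ℝ)..1, (‖v s‖ - m) ^ 2 =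
        (∫ s in (0 : ℝ)..1, ‖v s‖ ^ 2) - 2 * m * (∫ s in (0 : ℝ)..1, ‖v s‖) + m ^ 2 := by
      have : ∀ s, (‖v s‖ - m) ^ 2 = ‖v s‖ ^ 2 - 2 * m * ‖v s‖ + m ^ 2 := fun s => by ring
      simp_rw [this]
      rw [intervalIntegral.integral_add (hsq.sub ((iint v).norm.const_mul _)) (by simp),
        intervalIntegral.integral_sub hsq ((iint v).norm.const_mul _),
        intervalIntegral.integral_const_mul, intervalIntegral.integral_const]
      simp
    rw [h5, ← hm] at h4
    nlinarith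
  rw [norm_sq] at h3
  have h6 : ∫ s in (0 : ℝ)..1, ‖v s‖ ≤ ‖v‖ := abs_le_of_sq_le_sq' h3 (norm_nonneg _) |>.2
  linarith

theorem curve_sub (p q : E n × Vel n) {t : ℝ} (ht : t ∈ Icc (0 : ℝ) 1) :
    curve p t - curve q t = (p.1 - q.1) + ∫ s in (0 : ℝ)..t, (p.2 - q.2 : Vel n) s := by
  have h1 : ∫ s in (0 : ℝ)..t, (p.2 - q.2 : Vel n) s =
      (∫ s in (0 : ℝ)..t, p.2 s) - ∫ s in (0 : ℝ)..t, q.2 s := by
    rw [← intervalIntegral.integral_sub]
    · refine integral_congr_Icc ?_ ht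
      filter_upwards [Lp.coeFn_sub p.2 q.2] with s hs
      rw [hs]
      rfl
    · exact (iint p.2).mono_set (by
        rw [uIcc_of_le ht.1, uIcc_of_le zero_le_one]; exact Icc_subset_Icc_right ht.2)
    · exact (iint q.2).mono_set (by
        rw [uIcc_of_le ht.1, uIcc_of_le zero_le_one]; exact Icc_subset_Icc_right ht.2)
  rw [h1]
  simp only [curve]
  abel

theorem continuousOn_curve (p : E n × Vel n) : ContinuousOn (curve p) (Icc (0 : ℝ) 1) := by
  refine continuousOn_const.add ?_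
  have := intervalIntegral.continuousOn_primitive_interval' (iint p.2) (a := 0) (by simp)
  rwa [uIcc_of_le zero_le_one] at this

/-- the square of the `H¹` distance -/
theorem h1dist_eq (p q : LoopSpace n) : h1dist (toLoop p) (toLoop q) =
    Real.sqrt ((∫ t in (0 : ℝ)..1, ‖curve p.1 t - curve q.1 t‖ ^ 2) + ‖p.1.2 - q.1.2‖ ^ 2) := by
  rw [h1dist, ← norm_sq_sub]
  congr 2
  · refine integral_congr_Icc ?_ ⟨zero_le_one, le_rfl⟩
    filter_upwards [ae_restrict_mem measurableSet_Icc] with t ht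
    show ‖per p.1 t - per q.1 t‖ ^ 2 = _
    rw [per_eq p.2.2 ht, per_eq q.2.2 ht]
  · refine integral_congr_Icc ?_ ⟨zero_le_one, le_rfl⟩
    filter_upwards [deriv_per p.1, deriv_per q.1] with t h1 h2
    show ‖deriv (per p.1) t - deriv (per q.1) t‖ ^ 2 = _
    rw [h1, h2]

theorem cont_sq (p q : E n × Vel n) :
    ContinuousOn (fun t => ‖curve p t - curve q t‖ ^ 2) (Icc (0 : ℝ) 1) :=
  (((continuousOn_curve p).sub (continuousOn_curve q)).norm).pow 2

theorem h1dist_le (p q : LoopSpace n) :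
    h1dist (toLoop p) (toLoop q) ≤ 3 * dist p.1 q.1 := by
  rw [h1dist_eq]
  have hd : 0 ≤ dist p.1 q.1 := dist_nonneg
  have h1 : ‖p.1.1 - q.1.1‖ ≤ dist p.1 q.1 := by
    rw [← dist_eq_norm]; exact le_max_left _ _
  have h2 : ‖p.1.2 - q.1.2‖ ≤ dist p.1 q.1 := by
    rw [← dist_eq_norm]; exact le_max_right _ _
  have h3 : ∫ t in (0 : ℝ)..1, ‖curve p.1 t - curve q.1 t‖ ^ 2 ≤ (2 * dist p.1 q.1) ^ 2 := by
    have : ∫ t in (0 : ℝ)..1, ‖curve p.1 t - curve q.1 t‖ ^ 2 ≤
        ∫ t in (0 : ℝ)..1, (2 * dist p.1 q.1) ^ 2 := by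
      apply intervalIntegral.integral_mono_on zero_le_one
      · apply ContinuousOn.intervalIntegrable
        rw [uIcc_of_le zero_le_one]
        exact cont_sq _ _
      · exact intervalIntegrable_const
      · intro t ht
        rw [curve_sub _ _ ht]
        have h4 := norm_integral_le (p.1.2 - q.1.2) ht
        have h5 := norm_add_le (p.1.1 - q.1.1) (∫ s in (0 : ℝ)..t, (p.1.2 - q.1.2 : Vel n) s)
        have h6 := norm_nonneg (p.1.1 - q.1.1 + ∫ s in (0 : ℝ)..t, (p.1.2 - q.1.2 : Vel n) s)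
        exact pow_le_pow_left₀ h6 (by linarith) 2
    simpa using this
  rw [Real.sqrt_le_left (by positivity)]
  have h4 : ‖p.1.2 - q.1.2‖ ^ 2 ≤ dist p.1 q.1 ^ 2 := pow_le_pow_left₀ (norm_nonneg _) h2 2
  nlinarith

theorem le_h1dist (p q : LoopSpace n) :
    dist p.1 q.1 ≤ 2 * h1dist (toLoop p) (toLoop q) := by
  rw [h1dist_eq]
  set A := ∫ t in (0 : ℝ)..1, ‖curve p.1 t - curve q.1 t‖ ^ 2 with hA
  have hA0 : 0 ≤ A := intervalIntegral.integral_nonneg zero_le_one fun s _ => sq_nonneg _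
  set D := Real.sqrt (A + ‖p.1.2 - q.1.2‖ ^ 2) with hD
  have hD0 : 0 ≤ D := Real.sqrt_nonneg _
  have hDsq : D ^ 2 = A + ‖p.1.2 - q.1.2‖ ^ 2 := Real.sq_sqrt (by positivity)
  have h1 : ‖p.1.2 - q.1.2‖ ≤ D := by
    apply Real.le_sqrt_of_sq_le
    linarith
  have h2 : ‖p.1.1 - q.1.1‖ ≤ 2 * D := by
    by_contra hlt
    push Not at hlt
    have h3 : ∀ t ∈ Icc (0 : ℝ) 1, D < ‖curve p.1 t - curve q.1 t‖ := by
      intro t ht
      rw [curve_sub _ _ ht]
      have h4 := norm_integral_le (p.1.2 - q.1.2) ht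
      have h5 := norm_sub_le (p.1.1 - q.1.1 + ∫ s in (0 : ℝ)..t, (p.1.2 - q.1.2 : Vel n) s)
        (∫ s in (0 : ℝ)..t, (p.1.2 - q.1.2 : Vel n) s)
      rw [add_sub_cancel_right] at h5
      linarith
    have h6 : D ^ 2 < A := by
      have h7 : ∫ t in (0 : ℝ)..1, D ^ 2 < A := by
        apply intervalIntegral.integral_lt_integral_of_continuousOn_of_le_of_exists_lt one_pos
          continuousOn_const (cont_sq _ _)
        · intro t ht
          exact pow_le_pow_left₀ hD0 (h3 t ⟨ht.1.le, ht.2⟩).le 2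
        · exact ⟨0, ⟨le_rfl, zero_le_one⟩,
            pow_lt_pow_left₀ (h3 0 ⟨le_rfl, zero_le_one⟩) hD0 (by norm_num)⟩
      simpa using h7
    nlinarith [norm_nonneg (p.1.2 - q.1.2), sq_nonneg ‖p.1.2 - q.1.2‖]
  rw [Prod.dist_eq, dist_eq_norm, dist_eq_norm]
  exact max_le h2 (by linarith)

/-! ## the homeomorphism -/

theorem continuous_toLoop : Continuous (toLoop (n := n)) := by
  rw [continuous_def]
  intro U hU
  rw [isOpen_iff_mem_nhds]
  intro p hp
  obtain ⟨ε, h1, h2⟩ : ∃ ε : ℝ, 0 < ε ∧ ∀ γ', h1dist (toLoop p) γ' < ε → γ' ∈ U := hU _ hp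
  have h3 : Metric.ball p.1 (ε / 3) ∈ nhds p.1 := Metric.ball_mem_nhds _ (by positivity)
  have h4 : Continuous (fun q : LoopSpace n => q.1) := continuous_subtype_val
  filter_upwards [h4.continuousAt h3] with q hq
  apply h2
  have hq' : dist q.1 p.1 < ε / 3 := hq
  rw [dist_comm] at hq'
  exact (h1dist_le p q).trans_lt (by linarith)

theorem continuous_ofLoop : Continuous (ofLoop (n := n)) := by
  apply Continuous.subtype_mk (f := pv) _ fun γ => (ofLoop γ).2
  rw [continuous_def]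
  intro U hU
  show ∀ γ ∈ pv ⁻¹' U, ∃ ε : ℝ, 0 < ε ∧ ∀ γ', h1dist γ γ' < ε → γ' ∈ pv ⁻¹' U
  intro γ hγ
  obtain ⟨δ, h1, h2⟩ := Metric.isOpen_iff.1 hU _ hγ
  refine ⟨δ / 2, by positivity, fun γ' h => h2 ?_⟩
  have h3 := le_h1dist (ofLoop γ') (ofLoop γ)
  rw [toLoop_ofLoop, toLoop_ofLoop] at h3
  have h4 : h1dist γ' γ = h1dist γ γ' := by
    unfold h1dist
    simp_rw [norm_sub_rev (γ'.toFun _), norm_sub_rev (deriv γ'.toFun _)]
  rw [h4] at h3
  exact lt_of_le_of_lt h3 (by linarith)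

/-- the two models of the free loop space are homeomorphic -/
noncomputable def homeo (n : ℕ) : LoopSpace n ≃ₜ Loop n where
  toFun := toLoop
  invFun := ofLoop
  left_inv := ofLoop_toLoop
  right_inv := toLoop_ofLoop
  continuous_toFun := continuous_toLoop
  continuous_invFun := continuous_ofLoop

end Pool.Agent.Helper80.Drop.H1
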