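import Mathlib

/-!
# Definitions used in the statement of the main theorem for MP_51c806_gt

Riemannian metrics on `S^n`, the free loop space of `S^n` in the Sobolev `H¹` model, length,
integral (cubical) singular homology, critical levels.
-/

set_option autoImplicit false

namespace Pool.Agent.Helper80.Drop.Stmt

open scoped RealInnerProductSpace ContDiff
open MeasureTheory

/-- `ℝ^{n+1}` -/
abbrev E (n : ℕ) : Type := EuclideanSpace ℝ (Fin (n + 1))

/-- A Riemannian metric on the unit sphere `S^n ⊂ ℝ^{n+1}`: a smooth field of symmetric bilinear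
forms on `ℝ^{n+1}` which is positive definite on the tangent spaces of the sphere (every smooth
Riemannian metric on `S^n` is the restriction of such a field). -/
structure RMetric (n : ℕ) where
  /-- the bilinear form at a point -/
  form : E n → E n → E n → ℝ
  smooth : ∀ u v, ContDiff ℝ ∞ fun x => form x u v
  add : ∀ x u v w, form x (u + v) w = form x u w + form x v w
  smul : ∀ x (c : ℝ) u w, form x (c • u) w = c * form x u w
  symm : ∀ x u v, form x u v = form x v u
  pos : ∀ x u, ‖x‖ = 1 → ⟪x, u⟫ = 0 → u ≠ 0 → 0 < form x u u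

/-- Loops of Sobolev class `H¹` in `S^n ⊂ ℝ^{n+1}`, as `1`-periodic functions on `ℝ`: the loop is
the integral of its derivative, which is square integrable over the period. -/
structure Loop (n : ℕ) where
  /-- the loop -/
  toFun : ℝ → E n
  norm_eq : ∀ t, ‖toFun t‖ = 1
  periodic : ∀ t, toFun (t + 1) = toFun t
  sq_integrable : MemLp (deriv toFun) 2 (volume.restrict (Set.Icc 0 1))
  eq_integral : ∀ t ∈ Set.Icc (0 : ℝ) 1, toFun t = toFun 0 + ∫ s in (0 : ℝ)..t, deriv toFun s

/-- the `H¹` distance: the square root of `∫ ‖γ - γ'‖² + ∫ ‖dγ/dt - dγ'/dt‖²` -/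
noncomputable def h1dist {n : ℕ} (γ γ' : Loop n) : ℝ :=
  Real.sqrt ((∫ t in (0 : ℝ)..1, ‖γ.toFun t - γ'.toFun t‖ ^ 2) +
    ∫ t in (0 : ℝ)..1, ‖deriv γ.toFun t - deriv γ'.toFun t‖ ^ 2)

/-- The free loop space of `S^n`: the topology is the one of the `H¹` distance. -/
instance (n : ℕ) : TopologicalSpace (Loop n) where
  IsOpen U := ∀ γ ∈ U, ∃ ε : ℝ, 0 < ε ∧ ∀ γ', h1dist γ γ' < ε → γ' ∈ U
  isOpen_univ _ _ := ⟨1, one_pos, fun _ _ => trivial⟩
  isOpen_inter U V hU hV γ hγ := by
    obtain ⟨ε, h1, h2⟩ := hU γ hγ.1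
    obtain ⟨δ, h3, h4⟩ := hV γ hγ.2
    exact ⟨min ε δ, lt_min h1 h3, fun γ' h => ⟨h2 γ' (h.trans_le (min_le_left _ _)),
      h4 γ' (h.trans_le (min_le_right _ _))⟩⟩
  isOpen_sUnion s hs γ := by
    rintro ⟨U, hU, hγ⟩
    obtain ⟨ε, h1, h2⟩ := hs U hU γ hγ
    exact ⟨ε, h1, fun γ' h => ⟨U, hU, h2 γ' h⟩⟩

/-- length of a loop -/
noncomputable def len {n : ℕ} (g : RMetric n) (γ : Loop n) : ℝ :=
  ∫ t in (0 : ℝ)..1, Real.sqrt (g.form (γ.toFun t) (deriv γ.toFun t) (deriv γ.toFun t))

/-! ## integral cubical singular homology -/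

/-- maps from the standard `d`-cube -/
abbrev Cube (X : Type) (d : ℕ) : Type := (Fin d → unitInterval) → X

section homology

variable {X : Type} [TopologicalSpace X] {d : ℕ}

/-- `c` is a singular cubical chain of the subspace `S` of `X` -/
def IsChain (S : Set X) (c : Cube X d →₀ ℤ) : Prop :=
  ∀ σ ∈ c.support, Continuous σ ∧ ∀ s, σ s ∈ S

/-- `c` is a chain of `S` spanned by degenerate cubes: those which do not depend on one of the
coordinates -/
def IsDegen (S : Set X) (c : Cube X d →₀ ℤ) : Prop :=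
  ∀ σ ∈ c.support, (Continuous σ ∧ ∀ s, σ s ∈ S) ∧
    ∃ i : Fin d, ∀ s s' : Fin d → unitInterval, (∀ j, j ≠ i → s j = s' j) → σ s = σ s'

/-- faces of a cube -/
def face {X : Type} {d : ℕ} (σ : Cube X (d + 1)) (i : Fin (d + 1)) (e : unitInterval) : Cube X d :=
  fun s => σ (Fin.insertNth i e s)

/-- the boundary of a cubical chain -/
noncomputable def bd {X : Type} {d : ℕ} (c : Cube X (d + 1) →₀ ℤ) : Cube X d →₀ ℤ :=
  c.sum fun σ r => ∑ i : Fin (d + 1),
    (Finsupp.single (face σ i 1) ((-1) ^ (i : ℕ) * r) -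
      Finsupp.single (face σ i 0) ((-1) ^ (i : ℕ) * r))

/-- `c` is a cycle (modulo degenerate chains) of the subspace `S` -/
def IsCycle (S : Set X) : {d : ℕ} → (Cube X d →₀ ℤ) → Prop
  | 0, c => IsChain S c
  | _ + 1, c => IsChain S c ∧ IsDegen S (bd c)

/-- `c` is a boundary (modulo degenerate chains) in `X` -/
def IsBdry (c : Cube X d →₀ ℤ) : Prop :=
  ∃ (b : Cube X (d + 1) →₀ ℤ) (e : Cube X d →₀ ℤ),
    IsChain Set.univ b ∧ IsDegen Set.univ e ∧ c = bd b + e

end homology

/-- The critical (minimax) level of the homology class of the cycle `z`: the infimum of all `a`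
such that `z` is homologous to a cycle of the space of loops of length at most `a`. -/
noncomputable def crit {n : ℕ} (g : RMetric n) {d : ℕ} (z : Cube (Loop n) d →₀ ℤ) : ℝ :=
  sInf {a : ℝ | ∃ z' : Cube (Loop n) d →₀ ℤ, IsCycle {γ | len g γ ≤ a} z' ∧ IsBdry (z' - z)}

end Pool.Agent.Helper80.Drop.Stmt
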